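import Mathlib
set_option autoImplicit false

/-!
# H56/GS/Cat: local category quantifiers
-/

namespace Pool.Agent.H56.GS

open Set Topology TopologicalSpace Filter

variable {P : Type} [TopologicalSpace P]

/-- for generic points of `U` -/
def As (U : Set P) (A : P → Prop) : Prop := {q | q ∈ U → A q} ∈ residual P

theorem As.mono {U V : Set P} {A B : P → Prop} (h : As U A) (hVU : V ⊆ U) (hAB : ∀ q ∈ V, A q → B q) : As V B :=
  mem_of_superset h fun q hq hV => hAB q hV (hq (hVU hV))

theorem as_all {ι : Type} [Countable ι] {U : Set P} {A : ι → P → Prop} (h : ∀ i, As U (A i)) :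
    As U fun q => ∀ i, A i q := by
  have h1 : (⋂ i, {q | q ∈ U → A i q}) ∈ residual P := countable_iInter_mem.2 h
  exact mem_of_superset h1 fun q hq hU i => mem_iInter.1 hq i hU

theorem As.and {U : Set P} {A B : P → Prop} (h : As U A) (h' : As U B) : As U fun q => A q ∧ B q :=
  mem_of_superset (inter_mem h h') fun _ hq hU => ⟨hq.1 hU, hq.2 hU⟩

/-- a countable base of nonempty open sets -/
structure Bas (P : Type) [TopologicalSpace P] where
  /-- the sets -/
  N : ℕ → Set P
  op : ∀ k, IsOpen (N k)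
  ne : ∀ k, (N k).Nonempty
  base : ∀ U, IsOpen U → ∀ q ∈ U, ∃ k, q ∈ N k ∧ N k ⊆ U

theorem exists_bas (P : Type) [TopologicalSpace P] [SecondCountableTopology P] [Nonempty P] : Nonempty (Bas P) := by
  have h := isBasis_countableBasis P
  have hne : (countableBasis P).Nonempty := by
    obtain ⟨q⟩ := ‹Nonempty P›
    obtain ⟨v, hv, -, -⟩ := h.exists_subset_of_mem_open (mem_univ q) isOpen_univ
    exact ⟨v, hv⟩
  obtain ⟨N, hN⟩ := (countable_countableBasis P).exists_eq_range hne
  refine ⟨⟨N, fun k => ?_, fun k => ?_, fun U hU q hq => ?_⟩⟩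
  · exact h.isOpen (hN ▸ mem_range_self k)
  · exact nonempty_of_mem_countableBasis (hN ▸ mem_range_self k)
  · obtain ⟨v, hv, hq, hvU⟩ := h.exists_subset_of_mem_open hq hU
    rw [hN] at hv
    obtain ⟨k, rfl⟩ := hv
    exact ⟨k, hq, hvU⟩

variable (b : Bas P)

theorem as_false [BaireSpace P] {k : ℕ} : ¬ As (b.N k) fun _ => False := by
  intro h
  obtain ⟨q, hq, h1⟩ := (dense_of_mem_residual h).inter_open_nonempty _ (b.op k) (b.ne k)
  exact h1 hq

theorem As.ex [BaireSpace P] {k : ℕ} {A : P → Prop} (h : As (b.N k) A) : ∃ q ∈ b.N k, A q := by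
  by_contra hc
  push Not at hc
  exact as_false b (h.mono Subset.rfl fun q hq hA => hc q hq hA)

theorem as_loc [MeasurableSpace P] [BorelSpace P] {U : Set P} (hU : IsOpen U) {A : P → Prop}
    (hA : MeasurableSet {q | A q}) (h : ¬ As U fun q => ¬ A q) : ∃ k, b.N k ⊆ U ∧ As (b.N k) A := by
  obtain ⟨V, hV, hAV⟩ := hA.residualEq_isOpen
  rw [Filter.eventuallyEq_set] at hAV
  by_cases hUV : (U ∩ V).Nonempty
  · obtain ⟨q, hqU, hqV⟩ := hUV
    obtain ⟨k, hk, hkU⟩ := b.base _ (hU.inter hV) q ⟨hqU, hqV⟩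
    refine ⟨k, fun x hx => (hkU hx).1, ?_⟩
    exact mem_of_superset hAV fun x hx hxk => hx.2 (hkU hxk).2
  · refine absurd ?_ h
    refine mem_of_superset hAV fun x hx hxU hxA => hUV ⟨x, hxU, hx.1 hxA⟩

theorem as_not [BaireSpace P] [MeasurableSpace P] [BorelSpace P] {k : ℕ} {A : P → Prop}
    (hA : MeasurableSet {q | A q}) : (As (b.N k) fun q => ¬ A q) ↔ ∀ m, b.N m ⊆ b.N k → ¬ As (b.N m) A := by
  constructor
  · intro h m hm h1
    exact as_false b ((h.mono hm fun q _ h => h).and h1 |>.mono Subset.rfl fun q _ h => h.1 h.2)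
  · intro h
    by_contra hc
    obtain ⟨m, hm, h1⟩ := as_loc b (b.op k) hA hc
    exact h m hm h1

/-- measurable sets with measurable local category quantifiers -/
def Gd {T : Type} [MeasurableSpace T] [MeasurableSpace P] (A : Set (T × P)) : Prop :=
  MeasurableSet A ∧ ∀ k, MeasurableSet {t | As (b.N k) fun q => (t, q) ∈ A}

variable {T : Type} [MeasurableSpace T]

theorem gd_compl [BaireSpace P] [MeasurableSpace P] [BorelSpace P] {A : Set (T × P)} (h : Gd b A) : Gd b Aᶜ := by
  refine ⟨h.1.compl, fun k => ?_⟩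
  have e : {t | As (b.N k) fun q => (t, q) ∈ Aᶜ} =
      ⋂ m, {t | b.N m ⊆ b.N k → ¬ As (b.N m) fun q => (t, q) ∈ A} := by
    ext t
    simp only [mem_iInter, mem_ofPred_eq]
    exact as_not b (A := fun q => (t, q) ∈ A) (measurable_prodMk_left h.1)
  rw [e]
  refine MeasurableSet.iInter fun m => ?_
  by_cases hm : b.N m ⊆ b.N k
  · have : {t | b.N m ⊆ b.N k → ¬ As (b.N m) fun q => (t, q) ∈ A} = {t | As (b.N m) fun q => (t, q) ∈ A}ᶜ := by
      ext t; simp [hm]
    rw [this]
    exact (h.2 m).compl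
  · have : {t : T | b.N m ⊆ b.N k → ¬ As (b.N m) fun q => (t, q) ∈ A} = univ := by
      ext t; simp [hm]
    rw [this]
    exact MeasurableSet.univ

theorem gd_iInter [MeasurableSpace P] {A : ℕ → Set (T × P)} (h : ∀ n, Gd b (A n)) : Gd b (⋂ n, A n) := by
  refine ⟨MeasurableSet.iInter fun n => (h n).1, fun k => ?_⟩
  have e : {t | As (b.N k) fun q => (t, q) ∈ ⋂ n, A n} = ⋂ n, {t | As (b.N k) fun q => (t, q) ∈ A n} := by
    ext t
    simp only [mem_iInter, mem_ofPred_eq]
    constructor
    · intro h1 n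
      exact h1.mono Subset.rfl fun q _ h => h n
    · intro h1
      exact as_all h1
  rw [e]
  exact MeasurableSet.iInter fun n => (h n).2 k

theorem gd_all [BaireSpace P] [MeasurableSpace P] [BorelSpace P] {A : Set (T × P)} (hA : MeasurableSet A) : Gd b A := by
  have hg : (Prod.instMeasurableSpace : MeasurableSpace (T × P)) = MeasurableSpace.generateFrom
      (image2 (· ×ˢ ·) { s : Set T | MeasurableSet s } { t : Set P | MeasurableSet t }) := generateFrom_prod.symm
  rw [hg] at hA
  refine MeasurableSpace.generateFrom_induction _ (fun s _ => Gd b s) ?_ ?_ ?_ ?_ A hA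
  · rintro _ ⟨D, hD, E, hE, rfl⟩ -
    refine ⟨hD.prod hE, fun k => ?_⟩
    by_cases hk : As (b.N k) fun q => q ∈ E
    · have : {t | As (b.N k) fun q => (t, q) ∈ D ×ˢ E} = D := by
        ext t
        constructor
        · intro (h : As (b.N k) fun q => (t, q) ∈ D ×ˢ E)
          obtain ⟨q, -, h1⟩ := h.ex b
          exact h1.1
        · intro h
          exact hk.mono Subset.rfl fun q _ hq => ⟨h, hq⟩
      rw [this]; exact hD
    · have : {t | As (b.N k) fun q => (t, q) ∈ D ×ˢ E} = ∅ := by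
        rw [eq_empty_iff_forall_notMem]
        intro t (h : As (b.N k) fun q => (t, q) ∈ D ×ˢ E)
        exact hk (h.mono Subset.rfl fun q _ hq => hq.2)
      rw [this]; exact MeasurableSet.empty
  · refine ⟨MeasurableSet.empty, fun k => ?_⟩
    have : {t : T | As (b.N k) fun q => (t, q) ∈ (∅ : Set (T × P))} = ∅ := by
      rw [eq_empty_iff_forall_notMem]
      intro t (h : As (b.N k) fun q => (t, q) ∈ (∅ : Set (T × P)))
      obtain ⟨q, -, h1⟩ := h.ex b
      exact h1
    rw [this]; exact MeasurableSet.empty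
  · intro s _ hs
    exact gd_compl b hs
  · intro s _ hs
    have : (⋃ n, s n) = (⋂ n, (s n)ᶜ)ᶜ := by rw [compl_iInter]; simp
    rw [this]
    exact gd_compl b (gd_iInter b fun n => gd_compl b (hs n))

theorem cq [BaireSpace P] [MeasurableSpace P] [BorelSpace P] {A : T → P → Prop}
    (hA : MeasurableSet {p : T × P | A p.1 p.2}) (k : ℕ) : MeasurableSet {t | As (b.N k) (A t)} :=
  (gd_all b hA).2 k

end Pool.Agent.H56.GS
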