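import Pool.Agent.H56.GS.Cat
set_option autoImplicit false

/-!
# H56/GS/Code: canonical countable sets from generic countable sections
-/

namespace Pool.Agent.H56.GS

open Set Topology TopologicalSpace Filter

variable {P : Type} [TopologicalSpace P] (b : Bas P) {X : Type} (ι : X → ℕ → Bool)

open Classical in
/-- the code of the restriction of `g` to `N s`, up to meager sets -/
noncomputable def cd (s : ℕ) (g : P → X) : ℕ → ℕ → Bool
  | 0, t => decide (t = s)
  | n + 1, t => decide (b.N t ⊆ b.N s ∧ As (b.N t) fun q => ι (g q) n = true)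

theorem cd_congr {s : ℕ} {g g' : P → X} (h : As (b.N s) fun q => g q = g' q) : cd b ι s g = cd b ι s g' := by
  funext n t
  cases n with
  | zero => rfl
  | succ n =>
    simp only [cd, decide_eq_decide]
    refine and_congr_right fun ht => ⟨fun h1 => ?_, fun h1 => ?_⟩
    · exact ((h.mono ht fun _ _ h => h).and h1).mono Subset.rfl fun q _ h2 => by rw [← h2.1]; exact h2.2
    · exact ((h.mono ht fun _ _ h => h).and h1).mono Subset.rfl fun q _ h2 => by rw [h2.1]; exact h2.2

variable [BaireSpace P] [MeasurableSpace P] [BorelSpace P] [MeasurableSpace X]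

theorem cd_imp (hι : Measurable ι) {s : ℕ} {g g' : P → X} (hg : Measurable g) (hg' : Measurable g')
    (h : cd b ι s g = cd b ι s g') (n : ℕ) : As (b.N s) fun q => ι (g q) n = true → ι (g' q) n = true := by
  by_contra hc
  have m1 : ∀ g : P → X, Measurable g → MeasurableSet {q | ι (g q) n = true} := fun g hg =>
    ((measurable_pi_apply n).comp (hι.comp hg)) (measurableSet_singleton true)
  have h1 : ¬ As (b.N s) fun q => ¬ (ι (g q) n = true ∧ ¬ ι (g' q) n = true) := by
    intro h2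
    exact hc (h2.mono Subset.rfl fun q _ h3 h4 => by by_contra h5; exact h3 ⟨h4, h5⟩)
  obtain ⟨k, hk, h2⟩ := as_loc b (b.op s) ((m1 g hg).inter (m1 g' hg').compl) h1
  have h3 := congrFun (congrFun h (n + 1)) k
  simp only [cd, decide_eq_decide] at h3
  have h4 := (h3.1 ⟨hk, h2.mono Subset.rfl fun q _ h => h.1⟩).2
  exact as_false b ((h2.and h4).mono Subset.rfl fun q _ h => h.1.2 h.2)

theorem cd_inj (hι : Measurable ι) (hinj : Function.Injective ι) {s s' : ℕ} {g g' : P → X} (hg : Measurable g)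
    (hg' : Measurable g') (h : cd b ι s g = cd b ι s' g') : s = s' ∧ As (b.N s) fun q => g q = g' q := by
  have h0 := congrFun (congrFun h 0) s
  simp only [cd, decide_eq_decide, true_iff] at h0
  subst h0
  refine ⟨rfl, ?_⟩
  have h1 : As (b.N s) fun q => ∀ n, (ι (g q) n = true → ι (g' q) n = true) ∧
      (ι (g' q) n = true → ι (g q) n = true) :=
    as_all fun n => (cd_imp b ι hι hg hg' h n).and (cd_imp b ι hι hg' hg h.symm n)
  refine h1.mono Subset.rfl fun q _ h2 => hinj ?_
  funext n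
  have h3 := h2 n
  cases h4 : ι (g q) n <;> cases h5 : ι (g' q) n <;> simp_all

theorem cd_meas {T : Type} [MeasurableSpace T] (hι : Measurable ι) {g : T → P → X}
    (hg : Measurable fun p : T × P => g p.1 p.2) (s n t : ℕ) : MeasurableSet {τ | cd b ι s (g τ) n t = true} := by
  cases n with
  | zero => exact MeasurableSet.const (decide (t = s) = true)
  | succ n =>
    have e : {τ | cd b ι s (g τ) (n + 1) t = true} =
        {τ : T | b.N t ⊆ b.N s} ∩ {τ | As (b.N t) fun q => ι (g τ q) n = true} := by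
      ext τ
      simp [cd]
    rw [e]
    refine (MeasurableSet.const _).inter (cq b ?_ t)
    exact ((measurable_pi_apply n).comp (hι.comp hg)) (measurableSet_singleton true)

theorem meq {T : Type} [MeasurableSpace T] (hι : Measurable ι) (hinj : Function.Injective ι) {g g' : T → X}
    (hg : Measurable g) (hg' : Measurable g') : MeasurableSet {t | g t = g' t} := by
  have e : {t | g t = g' t} = ⋂ n, {t | ι (g t) n = ι (g' t) n} := by
    ext t
    simp only [mem_iInter, mem_ofPred_eq]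
    exact ⟨fun h n => by rw [h], fun h => hinj (funext h)⟩
  rw [e]
  exact MeasurableSet.iInter fun n => measurableSet_eq_fun ((measurable_pi_apply n).comp (hι.comp hg))
    ((measurable_pi_apply n).comp (hι.comp hg'))

/-- generic countable sections -/
structure Dat (F : Setoid X) (f : ℕ → X → P → X) : Prop where
  mf : ∀ i, Measurable fun p : X × P => f i p.1 p.2
  hF : ∀ i x q, F x (f i x q)
  inv : ∀ x x', F x x' → {q | range (fun i => f i x q) = range (fun i => f i x' q)} ∈ residual P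

variable {b ι} {F : Setoid X} {f : ℕ → X → P → X}

theorem Dat.mx (D : Dat F f) (i : ℕ) (x : X) : Measurable (f i x) := (D.mf i).comp (measurable_const.prodMk measurable_id)

theorem Dat.sel (D : Dat F f) (hι : Measurable ι) (hinj : Function.Injective ι) {x x' : X} (h : F x x') (i r : ℕ) :
    ∃ j k, b.N k ⊆ b.N r ∧ As (b.N k) fun q => f i x q = f j x' q := by
  by_contra hc
  push Not at hc
  have h1 : ∀ j, As (b.N r) fun q => ¬ (f i x q = f j x' q) := by
    intro j
    by_contra h2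
    obtain ⟨k, hk, h3⟩ := as_loc b (b.op r) (meq ι hι hinj (D.mx i x) (D.mx j x')) h2
    exact hc j k hk h3
  have h2 := as_all h1
  have h3 : As (b.N r) fun q => range (fun i => f i x q) = range (fun i => f i x' q) :=
    mem_of_superset (D.inv x x' h) fun q hq _ => hq
  refine as_false b ((h2.and h3).mono Subset.rfl fun q _ h4 => ?_)
  have h5 : f i x q ∈ range fun i => f i x' q := h4.2 ▸ mem_range_self i
  obtain ⟨j, hj⟩ := h5
  exact h4.1 j hj.symm

variable (b ι f) in
/-- the canonical countable set of the class of `x` -/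
def Kp (x : X) (w : ℕ → ℕ → Bool) : Prop := ∃ s i r, As (b.N r) fun q => cd b ι s (f 0 (f i x q)) = w

theorem Kp.tr (D : Dat F f) (hι : Measurable ι) (hinj : Function.Injective ι) {x x' : X} (h : F x x')
    {w : ℕ → ℕ → Bool} (hw : Kp b ι f x w) : Kp b ι f x' w := by
  obtain ⟨s, i, r, h1⟩ := hw
  obtain ⟨j, k, hk, h2⟩ := D.sel (b := b) hι hinj h i r
  exact ⟨s, j, k, ((h1.mono hk fun _ _ h => h).and h2).mono Subset.rfl fun q _ h3 => by rw [← h3.2]; exact h3.1⟩

theorem Kp.rel (D : Dat F f) (hι : Measurable ι) (hinj : Function.Injective ι) {x x' : X}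
    {w : ℕ → ℕ → Bool} (hw : Kp b ι f x w) (hw' : Kp b ι f x' w) : F x x' := by
  obtain ⟨s, i, r, h1⟩ := hw
  obtain ⟨s', i', r', h1'⟩ := hw'
  obtain ⟨q, -, h2⟩ := h1.ex b
  obtain ⟨q', -, h2'⟩ := h1'.ex b
  obtain ⟨-, h3⟩ := cd_inj b ι hι hinj (D.mx 0 (f i x q)) (D.mx 0 (f i' x' q')) (h2.trans h2'.symm)
  obtain ⟨p, -, h4⟩ := h3.ex b
  have h5 : F x (f 0 (f i x q) p) := F.trans (D.hF i x q) (D.hF 0 _ p)
  have h6 : F x' (f 0 (f i' x' q') p) := F.trans (D.hF i' x' q') (D.hF 0 _ p)
  rw [h4] at h5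
  exact F.trans h5 (F.symm h6)

theorem Dat.ex (D : Dat F f) (hι : Measurable ι) (hinj : Function.Injective ι) (x : X) : ∃ w, Kp b ι f x w := by
  have h1 : ∀ p, ∃ j k, b.N k ⊆ b.N 0 ∧ As (b.N k) fun q => f 0 (f 0 x p) q = f j x q := fun p =>
    D.sel (b := b) hι hinj (F.symm (D.hF 0 x p)) 0 0
  have h2 : ¬ ∀ jk : ℕ × ℕ, As (b.N 0) fun p => ¬ As (b.N jk.2) fun q => f 0 (f 0 x p) q = f jk.1 x q := by
    intro h3
    refine as_false b ((as_all h3).mono Subset.rfl fun p _ h4 => ?_)
    obtain ⟨j, k, -, h5⟩ := h1 p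
    exact h4 (j, k) h5
  push Not at h2
  obtain ⟨⟨j, k⟩, h3⟩ := h2
  have m1 : Measurable fun z : P × P => f 0 (f 0 x z.1) z.2 :=
    (D.mf 0).comp (((D.mx 0 x).comp measurable_fst).prodMk measurable_snd)
  have m2 : Measurable fun z : P × P => f j x z.2 := (D.mx j x).comp measurable_snd
  obtain ⟨r, -, h4⟩ := as_loc b (b.op 0)
    (cq b (A := fun p q => f 0 (f 0 x p) q = f j x q) (meq ι hι hinj m1 m2) k) h3
  exact ⟨cd b ι k (f j x), k, 0, r, h4.mono Subset.rfl fun p _ h5 => cd_congr b ι h5⟩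

variable (b ι f) in
/-- the value with index `(s, i, r)` is defined -/
def Vd (e : ℕ × ℕ × ℕ) (x : X) : Prop := ∀ n t,
  (As (b.N e.2.2) fun q => cd b ι e.1 (f 0 (f e.2.1 x q)) n t = true) ∨
    As (b.N e.2.2) fun q => cd b ι e.1 (f 0 (f e.2.1 x q)) n t = false

open Classical in
variable (b ι f) in
/-- the value with index `(s, i, r)` -/
noncomputable def vl (e : ℕ × ℕ × ℕ) (x : X) : ℕ → ℕ → Bool := fun n t =>
  decide (As (b.N e.2.2) fun q => cd b ι e.1 (f 0 (f e.2.1 x q)) n t = true)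

theorem vd_vl {e : ℕ × ℕ × ℕ} {x : X} (h : Vd b ι f e x) :
    As (b.N e.2.2) fun q => cd b ι e.1 (f 0 (f e.2.1 x q)) = vl b ι f e x := by
  have h1 : As (b.N e.2.2) fun q => ∀ n : ℕ × ℕ, cd b ι e.1 (f 0 (f e.2.1 x q)) n.1 n.2 = vl b ι f e x n.1 n.2 := by
    refine as_all fun n => ?_
    by_cases h2 : As (b.N e.2.2) fun q => cd b ι e.1 (f 0 (f e.2.1 x q)) n.1 n.2 = true
    · have : vl b ι f e x n.1 n.2 = true := by simp only [vl, decide_eq_true_eq]; exact h2
      rw [this]; exact h2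
    · have : vl b ι f e x n.1 n.2 = false := by simp only [vl, decide_eq_false_iff_not]; exact h2
      rw [this]; exact (h n.1 n.2).resolve_left h2
  exact h1.mono Subset.rfl fun q _ h2 => funext fun n => funext fun t => h2 (n, t)

theorem vd_of {e : ℕ × ℕ × ℕ} {x : X} {w : ℕ → ℕ → Bool}
    (h : As (b.N e.2.2) fun q => cd b ι e.1 (f 0 (f e.2.1 x q)) = w) : Vd b ι f e x ∧ vl b ι f e x = w := by
  have h1 : Vd b ι f e x := by
    intro n t
    cases hw : w n t with
    | true => exact Or.inl (h.mono Subset.rfl fun q _ h2 => by rw [h2]; exact hw)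
    | false => exact Or.inr (h.mono Subset.rfl fun q _ h2 => by rw [h2]; exact hw)
  refine ⟨h1, ?_⟩
  obtain ⟨q, -, h2⟩ := ((vd_vl h1).and h).ex b
  exact h2.1.symm.trans h2.2

theorem Dat.mcd (D : Dat F f) (hι : Measurable ι) (e : ℕ × ℕ × ℕ) (n t : ℕ) (v : Bool) :
    MeasurableSet {x | As (b.N e.2.2) fun q => cd b ι e.1 (f 0 (f e.2.1 x q)) n t = v} := by
  refine cq b (A := fun x q => cd b ι e.1 (f 0 (f e.2.1 x q)) n t = v) ?_ _
  have hg : Measurable fun p : (X × P) × P => f 0 (f e.2.1 p.1.1 p.1.2) p.2 :=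
    (D.mf 0).comp (((D.mf e.2.1).comp measurable_fst).prodMk measurable_snd)
  have h1 := cd_meas b ι hι (g := fun (τ : X × P) q => f 0 (f e.2.1 τ.1 τ.2) q) hg e.1 n t
  cases v with
  | true => exact h1
  | false =>
    have : {p : X × P | cd b ι e.1 (f 0 (f e.2.1 p.1 p.2)) n t = false} =
        {τ : X × P | cd b ι e.1 ((fun (τ : X × P) q => f 0 (f e.2.1 τ.1 τ.2) q) τ) n t = true}ᶜ := by
      ext p; simp
    rw [this]
    exact h1.compl

theorem Dat.mVd (D : Dat F f) (hι : Measurable ι) (e : ℕ × ℕ × ℕ) : MeasurableSet {x | Vd b ι f e x} := by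
  have : {x | Vd b ι f e x} = ⋂ n, ⋂ t,
      ({x | As (b.N e.2.2) fun q => cd b ι e.1 (f 0 (f e.2.1 x q)) n t = true} ∪
        {x | As (b.N e.2.2) fun q => cd b ι e.1 (f 0 (f e.2.1 x q)) n t = false}) := by
    ext x
    simp only [mem_iInter, mem_union, mem_ofPred_eq]
    exact Iff.rfl
  rw [this]
  exact MeasurableSet.iInter fun n => MeasurableSet.iInter fun t => (D.mcd hι e n t true).union (D.mcd hι e n t false)

theorem Dat.mvl (D : Dat F f) (hι : Measurable ι) (e : ℕ × ℕ × ℕ) : Measurable (vl b ι f e) := by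
  refine measurable_pi_iff.2 fun n => measurable_pi_iff.2 fun t => measurable_to_bool ?_
  have : (fun x => vl b ι f e x n t) ⁻¹' {true} =
      {x | As (b.N e.2.2) fun q => cd b ι e.1 (f 0 (f e.2.1 x q)) n t = true} := by
    ext x
    simp [vl]
  rw [this]
  exact D.mcd hι e n t true

/-- a Borel enumeration of the canonical countable sets -/
theorem Dat.seq (D : Dat F f) (b : Bas P) (hι : Measurable ι) (hinj : Function.Injective ι) :
    ∃ w : ℕ → X → (ℕ → ℕ → Bool), (∀ m, Measurable (w m)) ∧ ∀ x v, (∃ m, w m x = v) ↔ Kp b ι f x v := by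
  classical
  obtain ⟨e, he⟩ := exists_surjective_nat (ℕ × ℕ × ℕ)
  have hex : ∀ x, ∃ m, Vd b ι f (e m) x := by
    intro x
    obtain ⟨w, s, i, r, h⟩ := D.ex (b := b) hι hinj x
    obtain ⟨m, hm⟩ := he (s, i, r)
    refine ⟨m, ?_⟩
    rw [hm]
    exact (vd_of (e := (s, i, r)) h).1
  refine ⟨fun m x => if Vd b ι f (e m) x then vl b ι f (e m) x else vl b ι f (e (Nat.find (hex x))) x,
    fun m => ?_, fun x v => ?_⟩
  · exact Measurable.ite (D.mVd hι (e m)) (D.mvl hι (e m))
      (Measurable.find (f := fun m => vl b ι f (e m)) (fun m => D.mvl hι (e m)) (fun m => D.mVd hι (e m)) hex)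
  · constructor
    · rintro ⟨m, rfl⟩
      simp only
      split_ifs with h
      · exact ⟨_, _, _, vd_vl h⟩
      · exact ⟨_, _, _, vd_vl (Nat.find_spec (hex x))⟩
    · rintro ⟨s, i, r, h⟩
      obtain ⟨m, hm⟩ := he (s, i, r)
      obtain ⟨h1, h2⟩ := vd_of (e := (s, i, r)) h
      refine ⟨m, ?_⟩
      simp only [hm]
      rw [if_pos h1]
      exact h2

end Pool.Agent.H56.GS
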