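import Pool.Agent.H56.GS.Cat
import Pool.Agent.H93.EO.GenOf
set_option autoImplicit false

/-!
# H56/GS/Sel: Borel choice from nonmeager sections of a fixed Polish space
-/

namespace Pool.Agent.H56.GS

open Set Topology TopologicalSpace Filter Pool.Agent.H93.EO

variable {W P : Type} [MeasurableSpace W] [StandardBorelSpace W] [TopologicalSpace P] [PolishSpace P]
  [MeasurableSpace P] [BorelSpace P]

/-- same first coordinate -/
def EqF (W P : Type) : Setoid (W × P) := Setoid.ker Prod.fst

/-- the class is homeomorphic to `P` -/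
def clsEq (q : Quotient (EqF W P)) (w : W) (hw : ∀ p : P, Quotient.mk (EqF W P) (w, p) = q) :
    {y : W × P // Quotient.mk (EqF W P) y = q} ≃ P where
  toFun y := y.1.2
  invFun p := ⟨(w, p), hw p⟩
  left_inv y := by
    have h1 : Quotient.mk (EqF W P) y.1 = Quotient.mk (EqF W P) (w, y.1.2) := y.2.trans (hw _).symm
    have h2 : (EqF W P) y.1 (w, y.1.2) := Quotient.exact h1
    have h3 : y.1.1 = w := h2
    apply Subtype.ext
    exact Prod.ext h3.symm rfl
  right_inv p := rfl

theorem cls_w (q : Quotient (EqF W P)) : ∃ w : W, ∀ p : P, Quotient.mk (EqF W P) (w, p) = q := by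
  induction q using Quotient.inductionOn with
  | h x => exact ⟨x.1, fun p => Quotient.sound (show (EqF W P) (x.1, p) x from rfl)⟩

/-- the topology of the class -/
def tq (q : Quotient (EqF W P)) : TopologicalSpace {y : W × P // Quotient.mk (EqF W P) y = q} :=
  TopologicalSpace.induced (fun y => y.1.2) inferInstance

/-- the homeomorphism -/
noncomputable def hom (q : Quotient (EqF W P)) : @Homeomorph {y : W × P // Quotient.mk (EqF W P) y = q} P (tq q) _ :=
  letI := tq q
  (clsEq q (cls_w q).choose (cls_w q).choose_spec).toHomeomorphOfIsInducing ⟨rfl⟩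

/-- the category structure of the classes -/
noncomputable def cdat (b : Bas P) (d : ℕ → P) (hd : DenseRange d) : CatData (W × P) (EqF W P) where
  τ := tq
  t0 q := letI := tq q; (hom q).symm.t0Space
  baire q := letI := tq q; (hom q).isOpenEmbedding.baireSpace
  O n x := {y | y.2 ∈ b.N n}
  e i x := (x.1, d i)
  mF := measurableSet_eq_fun (measurable_fst.comp measurable_fst) (measurable_fst.comp measurable_snd)
  mO n := (b.op n).measurableSet.preimage (measurable_snd.comp measurable_snd)
  base x := by
    letI := tq (Quotient.mk (EqF W P) x)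
    have h1 : IsTopologicalBasis (range b.N) := by
      refine isTopologicalBasis_of_isOpen_of_nhds ?_ ?_
      · rintro _ ⟨n, rfl⟩; exact b.op n
      · intro q U hq hU
        obtain ⟨k, h2, h3⟩ := b.base U hU q hq
        exact ⟨_, ⟨k, rfl⟩, h2, h3⟩
    have h2 := h1.isInducing (f := fun y : {y : W × P // Quotient.mk (EqF W P) y = Quotient.mk (EqF W P) x} => y.1.2)
      ⟨rfl⟩
    have e : (range fun n => {y : {y : W × P // Quotient.mk (EqF W P) y = Quotient.mk (EqF W P) x} |
        y.1 ∈ ({y : W × P | y.2 ∈ b.N n} : Set (W × P))}) =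
        preimage (fun y : {y : W × P // Quotient.mk (EqF W P) y = Quotient.mk (EqF W P) x} => y.1.2) '' range b.N := by
      rw [← range_comp]
      rfl
    rw [e]
    exact h2
  me i := measurable_fst.prodMk measurable_const
  dense x := by
    letI := tq (Quotient.mk (EqF W P) x)
    have hd' : Dense (range d) := hd
    have h1 := hd'.preimage (hom (Quotient.mk (EqF W P) x)).isOpenMap
    refine h1.mono ?_
    rintro y ⟨i, hi⟩
    refine ⟨i, ?_⟩
    have h2 : (EqF W P) y.1 x := Quotient.exact y.2
    have h3 : y.1.1 = x.1 := h2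
    have h4 : d i = y.1.2 := hi
    exact Prod.ext h3 h4.symm

theorem sel_gen (b : Bas P) (d : ℕ → P) (hd : DenseRange d) (x : W × P) (A : W × P → Prop) :
    (genOf (cdat (W := W) b d hd)).gen x A ↔ {q : P | A (x.1, q)} ∈ residual P := by
  change {y : {y : W × P // Quotient.mk (EqF W P) y = Quotient.mk (EqF W P) x} | A y.1} ∈
    @residual _ (tq (Quotient.mk (EqF W P) x)) ↔ _
  letI := tq (Quotient.mk (EqF W P) x)
  rw [← (hom (Quotient.mk (EqF W P) x)).residual_map_eq, Filter.mem_map]
  have e : {y : {y : W × P // Quotient.mk (EqF W P) y = Quotient.mk (EqF W P) x} | A y.1} =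
      (hom (Quotient.mk (EqF W P) x)) ⁻¹' {q : P | A (x.1, q)} := by
    ext y
    have h2 : (EqF W P) y.1 x := Quotient.exact y.2
    have h3 : y.1.1 = x.1 := h2
    change A y.1 ↔ A (x.1, y.1.2)
    rw [← h3]
  rw [e]

/-- Borel choice from the sections which are not meager -/
theorem choice [Nonempty P] {A : Set (W × P)} (hA : MeasurableSet A) :
    ∃ s : W → P, Measurable s ∧ ∀ w, {q | (w, q) ∉ A} ∉ residual P → (w, s w) ∈ A := by
  obtain ⟨b⟩ := exists_bas P
  obtain ⟨d, hd⟩ := exists_dense_seq P
  let S := genOf (cdat (W := W) b d hd)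
  let B : Set ((W × P) × (W × P)) := {p | p.1.1 = p.2.1 ∧ p.2 ∈ A}
  have hB : MeasurableSet B :=
    (measurableSet_eq_fun (measurable_fst.comp measurable_fst) (measurable_fst.comp measurable_snd)).inter
      (measurable_snd hA)
  have hD : MeasurableSet {x : W × P | ¬ S.gen x fun y => (x, y) ∉ B} :=
    (S.cq (W × P) id measurable_id (fun x y => (x, y) ∉ B) hB.compl).compl
  obtain ⟨s, hs, h⟩ := lsu S hB hD fun x hx => hx
  let p0 : P := Classical.choice inferInstance
  refine ⟨fun w => (s (w, p0)).2, measurable_snd.comp (hs.comp (measurable_id.prodMk measurable_const)), fun w hw => ?_⟩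
  have h1 : ¬ S.gen (w, p0) fun y => ((w, p0), y) ∉ B := by
    intro h2
    have h3 := (sel_gen b d hd (w, p0) _).1 h2
    refine hw (Filter.mem_of_superset h3 fun q hq hq' => hq ⟨rfl, hq'⟩)
  obtain ⟨h4, h5⟩ := h (w, p0) h1
  have h6 : w = (s (w, p0)).1 := h4
  have h7 : s (w, p0) ∈ A := h5
  have h8 : (w, (s (w, p0)).2) = s (w, p0) := Prod.ext h6 rfl
  rw [h8]
  exact h7

end Pool.Agent.H56.GS
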