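import Pool.Agent.H56.GS.Main
import Pool.Agent.H56.GS.Sel
set_option autoImplicit false

/-!
# H56/GS/Elim: the parameter is eliminated
-/

namespace Pool.Agent.H56.GS

open Set Topology TopologicalSpace Filter Pool.Agent.H93.EO

variable {P : Type} [TopologicalSpace P] (b : Bas P) {X : Type} (ι : X → ℕ → Bool)

open Classical in
/-- decoding -/
noncomputable def dec (w : ℕ → ℕ → Bool) (q : P) : ℕ → Bool := fun n =>
  decide (∃ t, q ∈ b.N t ∧ w (n + 1) t = true)

theorem dec_iff (w : ℕ → ℕ → Bool) (q : P) (n : ℕ) :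
    dec b w q n = true ↔ ∃ t, q ∈ b.N t ∧ w (n + 1) t = true := by
  simp [dec]

theorem dec_meas [MeasurableSpace P] [BorelSpace P] :
    Measurable fun z : (ℕ → ℕ → Bool) × P => dec b z.1 z.2 := by
  refine measurable_pi_iff.2 fun n => measurable_to_bool ?_
  have e : (fun z : (ℕ → ℕ → Bool) × P => dec b z.1 z.2 n) ⁻¹' {true} =
      ⋃ t, {z | z.2 ∈ b.N t} ∩ {z | z.1 (n + 1) t = true} := by
    ext z
    simp [dec]
  rw [e]
  refine MeasurableSet.iUnion fun t => ?_
  have hm : Measurable fun z : (ℕ → ℕ → Bool) × P => z.1 (n + 1) t :=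
    (measurable_pi_apply t).comp ((measurable_pi_apply (n + 1)).comp measurable_fst)
  exact ((b.op t).measurableSet.preimage measurable_snd).inter (hm (measurableSet_singleton true))

variable [BaireSpace P] [MeasurableSpace P] [BorelSpace P] [MeasurableSpace X]

theorem dec_eq (hι : Measurable ι) {s : ℕ} {g : P → X} (hg : Measurable g) :
    As (b.N s) fun q => dec b (cd b ι s g) q = ι (g q) := by
  have m1 : ∀ n, MeasurableSet {q | ι (g q) n = true} := fun n =>
    ((measurable_pi_apply n).comp (hι.comp hg)) (measurableSet_singleton true)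
  have h1 : ∀ n, As (b.N s) fun q => (∃ t, q ∈ b.N t ∧ cd b ι s g (n + 1) t = true) → ι (g q) n = true := by
    intro n
    have h2 : ∀ t, As (b.N s) fun q => (q ∈ b.N t ∧ cd b ι s g (n + 1) t = true) → ι (g q) n = true := by
      intro t
      by_cases ht : cd b ι s g (n + 1) t = true
      · have h3 : As (b.N t) fun q => ι (g q) n = true := by
          have h4 := ht
          simp only [cd, decide_eq_true_eq] at h4
          exact h4.2
        exact Filter.mem_of_superset h3 fun q hq _ h5 => hq h5.1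
      · exact Filter.mem_of_superset Filter.univ_mem fun q _ _ h5 => absurd h5.2 ht
    exact (as_all h2).mono Subset.rfl fun q _ h3 ⟨t, h4⟩ => h3 t h4
  have h2 : ∀ n, As (b.N s) fun q => ι (g q) n = true → ∃ t, q ∈ b.N t ∧ cd b ι s g (n + 1) t = true := by
    intro n
    by_contra hc
    have mB : MeasurableSet {q | ι (g q) n = true ∧ ¬ ∃ t, q ∈ b.N t ∧ cd b ι s g (n + 1) t = true} := by
      have e : {q | ∃ t, q ∈ b.N t ∧ cd b ι s g (n + 1) t = true} =
          ⋃ t, {q | q ∈ b.N t} ∩ {q : P | cd b ι s g (n + 1) t = true} := by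
        ext q; simp
      have m2 : MeasurableSet {q | ∃ t, q ∈ b.N t ∧ cd b ι s g (n + 1) t = true} := by
        rw [e]
        exact MeasurableSet.iUnion fun t => (b.op t).measurableSet.inter (MeasurableSet.const _)
      exact (m1 n).inter m2.compl
    have h3 : ¬ As (b.N s) fun q => ¬ (ι (g q) n = true ∧ ¬ ∃ t, q ∈ b.N t ∧ cd b ι s g (n + 1) t = true) := by
      intro h4
      exact hc (h4.mono Subset.rfl fun q _ h5 h6 => by by_contra h7; exact h5 ⟨h6, h7⟩)
    obtain ⟨k, hk, h4⟩ := as_loc b (b.op s) mB h3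
    have h5 : cd b ι s g (n + 1) k = true := by
      simp only [cd, decide_eq_true_eq]
      exact ⟨hk, h4.mono Subset.rfl fun q _ h => h.1⟩
    obtain ⟨q, hq, h6⟩ := h4.ex b
    exact h6.2 ⟨k, hq, h5⟩
  have h3 := as_all fun n => (h1 n).and (h2 n)
  refine h3.mono Subset.rfl fun q _ h4 => ?_
  funext n
  have h5 := h4 n
  rw [← dec_iff] at h5
  cases h6 : ι (g q) n <;> cases h7 : dec b (cd b ι s g) q n <;> simp_all

/-- the parameter is eliminated -/
theorem elim {X P : Type} [MeasurableSpace X] [StandardBorelSpace X] [TopologicalSpace P] [PolishSpace P]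
    [Nonempty P] [MeasurableSpace P] [BorelSpace P] (F : Setoid X) (f : ℕ → X → P → X)
    (hf : ∀ i, Measurable fun p : X × P => f i p.1 p.2) (hF : ∀ i x q, F x (f i x q))
    (hinv : ∀ x x', F x x' → {q | range (fun i => f i x q) = range (fun i => f i x' q)} ∈ residual P) :
    ∃ g : ℕ → X → X, (∀ m, Measurable (g m)) ∧ (∀ m x, F x (g m x)) ∧
      ∀ x x', F x x' → (range fun m => g m x) = range fun m => g m x' := by
  classical
  rcases isEmpty_or_nonempty X with hX | hX
  · exact ⟨fun _ x => x, fun _ => measurable_id, fun _ x => F.refl x, fun x => hX.elim x⟩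
  obtain ⟨b⟩ := exists_bas P
  obtain ⟨ι, hι, hinj⟩ := MeasurableSpace.measurable_injection_nat_bool_of_countablySeparated X
  have D : Dat F f := ⟨hf, hF, hinv⟩
  obtain ⟨w, hw, hK⟩ := D.seq b hι hinj
  have hemb : MeasurableEmbedding ι := hι.measurableEmbedding hinj
  obtain ⟨x0⟩ := hX
  let κ : (ℕ → Bool) → X := Function.extend ι id fun _ => x0
  have hκ : Measurable κ := hemb.measurable_extend measurable_id measurable_const
  have hκι : ∀ y, κ (ι y) = y := fun y => hinj.extend_apply _ _ y
  have weq : ∀ {T : Type} [MeasurableSpace T] {u v : T → ℕ → ℕ → Bool}, Measurable u → Measurable v →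
      MeasurableSet {t | u t = v t} := by
    intro T _ u v hu hv
    have e : {t | u t = v t} = ⋂ n, ⋂ k, {t | u t n k = v t n k} := by
      ext t
      simp only [mem_iInter, mem_ofPred_eq]
      exact ⟨fun h n k => by rw [h], fun h => funext fun n => funext fun k => h n k⟩
    rw [e]
    exact MeasurableSet.iInter fun n => MeasurableSet.iInter fun k => measurableSet_eq_fun
      ((measurable_pi_apply k).comp ((measurable_pi_apply n).comp hu))
      ((measurable_pi_apply k).comp ((measurable_pi_apply n).comp hv))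
  let A : Set ((ℕ → ℕ → Bool) × P) := {z | dec b z.1 z.2 ∈ range ι ∧ ∃ m, w m (κ (dec b z.1 z.2)) = z.1}
  have hA1 : MeasurableSet {z : (ℕ → ℕ → Bool) × P | ∃ m, w m (κ (dec b z.1 z.2)) = z.1} := by
    have e : {z : (ℕ → ℕ → Bool) × P | ∃ m, w m (κ (dec b z.1 z.2)) = z.1} =
        ⋃ m, {z | w m (κ (dec b z.1 z.2)) = z.1} := by
      ext z; simp
    rw [e]
    exact MeasurableSet.iUnion fun m => weq ((hw m).comp (hκ.comp (dec_meas b))) measurable_fst
  have hA : MeasurableSet A := (dec_meas b hemb.measurableSet_range).inter hA1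
  obtain ⟨s, hs, hsA⟩ := choice hA
  let p : (ℕ → ℕ → Bool) → X := fun v => κ (dec b v (s v))
  have hp : Measurable p := hκ.comp ((dec_meas b).comp (measurable_id.prodMk hs))
  have key : ∀ x v, Kp b ι f x v → Kp b ι f (p v) v := by
    intro x v hv
    have h1 : (v, s v) ∈ A := by
      refine hsA v fun hres => ?_
      obtain ⟨s0, i, r, h2⟩ := hv
      have hv' : Kp b ι f x v := ⟨s0, i, r, h2⟩
      obtain ⟨q', -, h3⟩ := h2.ex b
      have h4 := dec_eq b ι hι (s := s0) (D.mx 0 (f i x q'))
      rw [h3] at h4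
      have h5 : As (b.N s0) fun q => (v, q) ∉ A := Filter.mem_of_superset hres fun q hq _ => hq
      refine as_false b ((h4.and h5).mono Subset.rfl fun q _ h6 => h6.2 ?_)
      have h7 : F x (f 0 (f i x q') q) := F.trans (D.hF i x q') (D.hF 0 _ q)
      refine ⟨⟨_, h6.1.symm⟩, ?_⟩
      have h8 : κ (dec b v q) = f 0 (f i x q') q := by rw [h6.1, hκι]
      change ∃ m, w m (κ (dec b v q)) = v
      rw [h8]
      exact (hK _ v).2 (hv'.tr D hι hinj h7)
    exact (hK _ v).1 h1.2
  refine ⟨fun m x => p (w m x), fun m => hp.comp (hw m), fun m x => ?_, fun x x' h => ?_⟩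
  · have h1 : Kp b ι f x (w m x) := (hK x _).1 ⟨m, rfl⟩
    exact h1.rel D hι hinj (key x _ h1)
  · have h1 : ∀ x x', F x x' → (range fun m => p (w m x)) ⊆ range fun m => p (w m x') := by
      rintro x x' h _ ⟨m, rfl⟩
      obtain ⟨m', hm'⟩ := (hK x' (w m x)).2 (((hK x _).1 ⟨m, rfl⟩).tr D hι hinj h)
      exact ⟨m', by simp only [hm']⟩
    exact Subset.antisymm (h1 x x' h) (h1 x' x (F.symm h))

end Pool.Agent.H56.GS
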