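import Pool.Agent.H56.GS.Elim
set_option autoImplicit false

/-!
# H56/GS/Gen: sections which lie in the class only generically
-/

namespace Pool.Agent.H56.GS

open Set Topology TopologicalSpace Filter

/-- modification of the sections on the generically void set of parameters where they leave the class -/
theorem gen {X P : Type} [MeasurableSpace X] [StandardBorelSpace X] [TopologicalSpace P] [PolishSpace P]
    [Nonempty P] [MeasurableSpace P] [BorelSpace P] (F : Setoid X) (f : ℕ → X → P → X)
    (hf : ∀ i, Measurable fun p : X × P => f i p.1 p.2) (hF : ∀ i x, {q | F x (f i x q)} ∈ residual P)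
    (hinv : ∀ x x', F x x' → {q | range (fun i => f i x q) = range (fun i => f i x' q)} ∈ residual P) :
    ∃ f' : ℕ → X → P → X, (∀ i, Measurable fun p : X × P => f' i p.1 p.2) ∧ (∀ i x q, F x (f' i x q)) ∧
      ∀ x x', F x x' → {q | range (fun i => f' i x q) = range (fun i => f' i x' q)} ∈ residual P := by
  classical
  obtain ⟨b⟩ := exists_bas P
  have hall : ∀ x, {q | ∀ i, F x (f i x q)} ∈ residual P := by
    intro x
    have h1 : (⋂ i, {q | F x (f i x q)}) ∈ residual P := countable_iInter_mem.2 fun i => hF i x
    exact mem_of_superset h1 fun q hq i => mem_iInter.1 hq i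
  have hiff : ∀ x x', F x x' ↔ {q | range (fun i => f i x q) = range (fun i => f i x' q)} ∈ residual P := by
    intro x x'
    refine ⟨hinv x x', fun h => ?_⟩
    obtain ⟨q, hq⟩ := (dense_of_mem_residual (inter_mem h (inter_mem (hall x) (hall x')))).nonempty
    have h1 : f 0 x q ∈ range (fun i => f i x' q) := by
      rw [← hq.1]; exact ⟨0, rfl⟩
    obtain ⟨j, hj⟩ := h1
    have h2 : F x (f 0 x q) := hq.2.1 0
    have h3 : F x' (f j x' q) := hq.2.2 j
    have h4 : f j x' q = f 0 x q := hj
    rw [h4] at h3
    exact F.trans h2 (F.symm h3)
  have hmF : MeasurableSet {p : X × X | F p.1 p.2} := by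
    have hS : MeasurableSet {p : (X × X) × P | range (fun i => f i p.1.1 p.2) = range (fun i => f i p.1.2 p.2)} := by
      have e : {p : (X × X) × P | range (fun i => f i p.1.1 p.2) = range (fun i => f i p.1.2 p.2)} =
          (⋂ i, ⋃ j, {p : (X × X) × P | f j p.1.2 p.2 = f i p.1.1 p.2}) ∩
          ⋂ i, ⋃ j, {p : (X × X) × P | f j p.1.1 p.2 = f i p.1.2 p.2} := by
        ext p
        simp only [mem_setOf_eq, mem_inter_iff, mem_iInter, mem_iUnion]
        rw [Subset.antisymm_iff, range_subset_iff, range_subset_iff]
        rfl
      have m1 : ∀ i, Measurable fun p : (X × X) × P => f i p.1.1 p.2 := fun i =>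
        (hf i).comp ((measurable_fst.comp measurable_fst).prodMk measurable_snd)
      have m2 : ∀ i, Measurable fun p : (X × X) × P => f i p.1.2 p.2 := fun i =>
        (hf i).comp ((measurable_snd.comp measurable_fst).prodMk measurable_snd)
      rw [e]
      exact (MeasurableSet.iInter fun i => MeasurableSet.iUnion fun j => measurableSet_eq_fun (m2 j) (m1 i)).inter
        (MeasurableSet.iInter fun i => MeasurableSet.iUnion fun j => measurableSet_eq_fun (m1 j) (m2 i))
    have e : {p : X × X | F p.1 p.2} =
        ⋂ k, {p : X × X | As (b.N k) fun q => range (fun i => f i p.1 q) = range (fun i => f i p.2 q)} := by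
      ext p
      simp only [mem_setOf_eq, mem_iInter]
      rw [hiff p.1 p.2]
      constructor
      · intro h k
        exact mem_of_superset h fun q hq _ => hq
      · intro h
        have h1 : (⋂ k, {q | q ∈ b.N k → range (fun i => f i p.1 q) = range (fun i => f i p.2 q)}) ∈ residual P :=
          countable_iInter_mem.2 h
        refine mem_of_superset h1 fun q hq => ?_
        obtain ⟨k, hk, -⟩ := b.base univ isOpen_univ q (mem_univ q)
        exact mem_iInter.1 hq k hk
    rw [e]
    exact MeasurableSet.iInter fun k => cq b hS k
  refine ⟨fun i x q => if F x (f i x q) then f i x q else x, fun i => ?_, fun i x q => ?_, fun x x' h => ?_⟩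
  · refine Measurable.ite ?_ (hf i) measurable_fst
    exact (measurable_fst.prodMk (hf i)) hmF
  · by_cases h : F x (f i x q)
    · simp only [h, if_true]
    · simp only [h, if_false]
      exact F.refl x
  · refine mem_of_superset (inter_mem (hinv x x' h) (inter_mem (hall x) (hall x'))) fun q hq => ?_
    simp only [mem_setOf_eq]
    have h1 : (fun i => if F x (f i x q) then f i x q else x) = fun i => f i x q :=
      funext fun i => if_pos (hq.2.1 i)
    have h2 : (fun i => if F x' (f i x' q) then f i x' q else x') = fun i => f i x' q :=
      funext fun i => if_pos (hq.2.2 i)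
    rw [h1, h2]
    exact hq.1

end Pool.Agent.H56.GS
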