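import Pool.Agent.H56.GS.Code
import Pool.Agent.H93.EO.Part3
set_option autoImplicit false

/-!
# H56/GS/Main: generic countable sections
-/

namespace Pool.Agent.H56.GS

open Set Topology TopologicalSpace Filter Pool.Agent.H93.EO

/-- `ℕ → ℕ → Bool` with the discrete metric -/
def DW : Type := ℕ → ℕ → Bool

open Classical in
noncomputable instance : MetricSpace DW where
  dist a b := if a = b then 0 else 1
  dist_self a := if_pos rfl
  dist_comm a b := by simp only [eq_comm]
  dist_triangle a b c := by
    by_cases h1 : a = b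
    · subst h1; simp
    · by_cases h2 : a = c
      · rw [if_pos h2, if_neg h1]; split_ifs <;> norm_num
      · rw [if_neg h2, if_neg h1]; split_ifs <;> norm_num
  eq_of_dist_eq_zero := by
    intro a b h
    by_contra h1
    have h2 : (if a = b then (0 : ℝ) else 1) = 0 := h
    rw [if_neg h1] at h2
    norm_num at h2

theorem dw_lt {a b : DW} (h : dist a b < 1) : a = b := by
  classical
  by_contra h1
  have h2 : (if a = b then (0 : ℝ) else 1) < 1 := by
    have : dist a b = if a = b then (0 : ℝ) else 1 := by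
      change (@ite ℝ (a = b) _ 0 1) = _
      congr
    rw [← this]; exact h
  rw [if_neg h1] at h2
  exact lt_irrefl _ h2

instance : CompleteSpace DW := by
  refine Metric.complete_of_cauchySeq_tendsto fun u hu => ?_
  obtain ⟨N, hN⟩ := Metric.cauchySeq_iff'.1 hu 1 one_pos
  refine ⟨u N, tendsto_const_nhds.congr' ?_⟩
  filter_upwards [eventually_ge_atTop N] with n hn
  exact (dw_lt (hN n hn)).symm

theorem dw_closure (A : Set DW) : closure A = A := by
  refine Subset.antisymm (fun x hx => ?_) subset_closure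
  obtain ⟨y, hy, h⟩ := Metric.mem_closure_iff.1 hx 1 one_pos
  rw [dw_lt h]; exact hy

/-- the index sets -/
def aw (π : ℕ → ℕ × ℕ × Bool) (w : ℕ → ℕ → ℕ → Bool) : ℕ → Set ℕ
  | 0 => univ
  | n + 1 => {i | w i (π n).1 (π n).2.1 = (π n).2.2}

open Classical in
theorem one {π : ℕ → ℕ × ℕ × Bool} (hπ : Function.Surjective π) {w w' : ℕ → ℕ → ℕ → Bool} {M : Type} [MetricSpace M]
    (c c' : ℕ → M) (h1 : ∀ i j, dist (c' i) (c' j) = if w' i = w' j then 0 else 1)
    (h3 : ∀ n, closure (c '' aw π w n) = closure (c' '' aw π w' n)) (i : ℕ) : ∃ j, w i = w' j := by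
  have h4 : c i ∈ closure (c' '' aw π w' 0) := by
    rw [← h3 0]; exact subset_closure ⟨i, mem_univ i, rfl⟩
  obtain ⟨_, ⟨j, -, rfl⟩, h5⟩ := Metric.mem_closure_iff.1 h4 (1 / 2) (by norm_num)
  refine ⟨j, ?_⟩
  funext n t
  obtain ⟨m, hm⟩ := hπ (n, t, w i n t)
  have h6 : c i ∈ closure (c' '' aw π w' (m + 1)) := by
    rw [← h3 (m + 1)]
    refine subset_closure ⟨i, ?_, rfl⟩
    simp only [aw, mem_ofPred_eq, hm]
  obtain ⟨_, ⟨l, hl, rfl⟩, h7⟩ := Metric.mem_closure_iff.1 h6 (1 / 2) (by norm_num)
  simp only [aw, mem_ofPred_eq, hm] at hl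
  have h8 : dist (c' j) (c' l) < 1 := by
    have := dist_triangle (c' j) (c i) (c' l)
    rw [dist_comm (c' j) (c i)] at this
    linarith
  rw [h1] at h8
  have h9 : w' j = w' l := by
    by_contra h10
    rw [if_neg h10] at h8
    exact lt_irrefl _ h8
  rw [h9, hl]

theorem disc {Ω : Type} [MeasurableSpace Ω] (w : ℕ → Ω → (ℕ → ℕ → Bool)) (hw : ∀ m, Measurable (w m)) :
    ∃ (G Z : Type) (_ : TopologicalSpace G) (_ : Group G) (_ : IsTopologicalGroup G)
      (_ : PolishSpace G) (_ : TopologicalSpace Z) (_ : PolishSpace Z) (_ : MeasurableSpace Z)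
      (_ : BorelSpace Z) (_ : MulAction G Z) (_ : ContinuousSMul G Z) (f : Ω → Z),
      Measurable f ∧ ∀ x x', (range fun m => w m x) = (range fun m => w m x') ↔ ∃ g : G, g • f x = f x' := by
  classical
  obtain ⟨π, hπ⟩ := exists_surjective_nat (ℕ × ℕ × Bool)
  obtain ⟨G, Z, i1, i2, i3, i4, i5, i6, i7, i8, i9, i10, f, hf, hfo⟩ :=
    part3 (Ω := Ω) (fun x i j => if w i x = w j x then 0 else 1)
      (fun x =>
        { nonneg := fun i j => by split_ifs <;> norm_num
          le_one := fun i j => by split_ifs <;> norm_num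
          self := fun i => if_pos rfl
          symm := fun i j => by simp only [eq_comm]
          tri := fun i j k => by
            by_cases h1 : w i x = w j x
            · rw [h1]; simp
            · by_cases h2 : w i x = w k x
              · rw [if_pos h2, if_neg h1]; split_ifs <;> norm_num
              · rw [if_neg h2, if_neg h1]; split_ifs <;> norm_num })
      (fun i j => by
        refine Measurable.ite ?_ measurable_const measurable_const
        have e : {x | w i x = w j x} = ⋂ n, ⋂ t, {x | w i x n t = w j x n t} := by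
          ext x
          simp only [mem_iInter, mem_ofPred_eq]
          exact ⟨fun h n t => by rw [h], fun h => funext fun n => funext fun t => h n t⟩
        rw [e]
        refine MeasurableSet.iInter fun n => MeasurableSet.iInter fun t => measurableSet_eq_fun ?_ ?_
        · exact (measurable_pi_apply t).comp ((measurable_pi_apply n).comp (hw i))
        · exact (measurable_pi_apply t).comp ((measurable_pi_apply n).comp (hw j)))
      (fun x => aw π fun m => w m x) (fun x => rfl)
      (fun n i => by
        cases n with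
        | zero => exact MeasurableSet.univ
        | succ n =>
          exact ((measurable_pi_apply (π n).2.1).comp ((measurable_pi_apply (π n).1).comp (hw i)))
            (measurableSet_singleton (π n).2.2))
  refine ⟨G, Z, i1, i2, i3, i4, i5, i6, i7, i8, i9, i10, f, hf, fun x x' => ?_⟩
  rw [← hfo x x']
  constructor
  · intro h
    refine ⟨DW, inferInstance, inferInstance, fun i => w i x, fun i => w i x', fun i j => ?_, fun i j => ?_,
      fun n => ?_⟩
    · change (@ite ℝ (w i x = w j x) _ 0 1) = _
      congr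
    · change (@ite ℝ (w i x' = w j x') _ 0 1) = _
      congr
    · rw [dw_closure, dw_closure]
      have key : ∀ y : Ω, (fun i => w i y) '' aw π (fun m => w m y) n =
          (range fun m => w m y) ∩ {v : ℕ → ℕ → Bool | n = 0 ∨ v (π (n - 1)).1 (π (n - 1)).2.1 = (π (n - 1)).2.2} := by
        intro y
        ext v
        cases n with
        | zero =>
          constructor
          · rintro ⟨i, -, rfl⟩
            exact ⟨⟨i, rfl⟩, Or.inl rfl⟩
          · rintro ⟨⟨i, rfl⟩, -⟩
            exact ⟨i, mem_univ i, rfl⟩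
        | succ n =>
          constructor
          · rintro ⟨i, hi, rfl⟩
            exact ⟨⟨i, rfl⟩, Or.inr hi⟩
          · rintro ⟨⟨i, rfl⟩, h1⟩
            refine ⟨i, ?_, rfl⟩
            rcases h1 with h1 | h1
            · exact absurd h1 (Nat.succ_ne_zero n)
            · exact h1
      have k2 : (fun i => w i x) '' aw π (fun m => w m x) n = (fun i => w i x') '' aw π (fun m => w m x') n := by
        rw [key x, key x', h]
      exact k2
  · rintro ⟨M, _, _, c, c', h1, h2, h3⟩
    refine Subset.antisymm ?_ ?_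
    · rintro _ ⟨i, rfl⟩
      obtain ⟨j, hj⟩ := one hπ c c' (w := fun m => w m x) (w' := fun m => w m x') h2 h3 i
      exact ⟨j, hj.symm⟩
    · rintro _ ⟨i, rfl⟩
      obtain ⟨j, hj⟩ := one hπ c' c (w := fun m => w m x') (w' := fun m => w m x) h1 (fun n => (h3 n).symm) i
      exact ⟨j, hj.symm⟩

/-- the theorem -/
theorem main_gs {X P : Type} [MeasurableSpace X] [StandardBorelSpace X] [TopologicalSpace P] [PolishSpace P]
    [Nonempty P] [MeasurableSpace P] [BorelSpace P] (F : Setoid X) (f : ℕ → X → P → X)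
    (hf : ∀ i, Measurable fun p : X × P => f i p.1 p.2) (hF : ∀ i x q, F x (f i x q))
    (hinv : ∀ x x', F x x' → {q | range (fun i => f i x q) = range (fun i => f i x' q)} ∈ residual P) :
    (∃ w : ℕ → X → (ℕ → ℕ → Bool), (∀ m, Measurable (w m)) ∧
      (∀ x x', F x x' → (range fun m => w m x) = range fun m => w m x') ∧
      ∀ x x', ¬ F x x' → Disjoint (range fun m => w m x) (range fun m => w m x')) ∧
    ∃ (G Z : Type) (_ : TopologicalSpace G) (_ : Group G) (_ : IsTopologicalGroup G)
      (_ : PolishSpace G) (_ : TopologicalSpace Z) (_ : PolishSpace Z) (_ : MeasurableSpace Z)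
      (_ : BorelSpace Z) (_ : MulAction G Z) (_ : ContinuousSMul G Z) (f : X → Z),
      Measurable f ∧ ∀ x x' : X, F x x' ↔ ∃ g : G, g • f x = f x' := by
  obtain ⟨b⟩ := exists_bas P
  obtain ⟨ι, hι, hinj⟩ := MeasurableSpace.measurable_injection_nat_bool_of_countablySeparated X
  have D : Dat F f := ⟨hf, hF, hinv⟩
  obtain ⟨w, hw, hK⟩ := D.seq b hι hinj
  have h1 : ∀ x x', F x x' → (range fun m => w m x) ⊆ range fun m => w m x' := by
    rintro x x' h _ ⟨m, rfl⟩
    exact (hK x' _).2 (((hK x _).1 ⟨m, rfl⟩).tr D hι hinj h)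
  have h2 : ∀ x x', F x x' → (range fun m => w m x) = range fun m => w m x' := fun x x' h =>
    Subset.antisymm (h1 x x' h) (h1 x' x (F.symm h))
  have h3 : ∀ x x', ¬ F x x' → Disjoint (range fun m => w m x) (range fun m => w m x') := by
    intro x x' h
    rw [Set.disjoint_left]
    rintro v hv hv'
    exact h (((hK x v).1 hv).rel D hι hinj ((hK x' v).1 hv'))
  refine ⟨⟨w, hw, h2, h3⟩, ?_⟩
  obtain ⟨G, Z, i1, i2, i3, i4, i5, i6, i7, i8, i9, i10, φ, hφ, hφo⟩ := disc w hw
  refine ⟨G, Z, i1, i2, i3, i4, i5, i6, i7, i8, i9, i10, φ, hφ, fun x x' => ?_⟩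
  rw [← hφo x x']
  refine ⟨h2 x x', fun h => ?_⟩
  by_contra hc
  exact Set.disjoint_left.1 (h3 x x' hc) (mem_range_self 0) (h ▸ mem_range_self 0)

end Pool.Agent.H56.GS
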