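import Mathlib

/-!
# Sharpness: `E₁` with cofinitely many parameters, and `E₁` against `E₀` with a Cohen parameter
-/

set_option autoImplicit false

namespace Pool.Agent.H56.GS

open MeasureTheory Set Filter Topology

/-- an atomless probability measure on the Cantor space -/
theorem exists_atomless : ∃ ν : Measure (ℕ → Bool), IsProbabilityMeasure ν ∧ ∀ v, ν {v} = 0 := by
  have h1 : ¬ Countable (Icc (0 : ℝ) 1) := by
    intro h
    have h2 : (volume : Measure ℝ) (Icc (0 : ℝ) 1) = 0 := (Set.countable_coe_iff.1 h).measure_zero _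
    rw [Real.volume_Icc] at h2
    norm_num at h2
  have h4 : Cardinal.mk (ℕ → Bool) = Cardinal.continuum := by simp
  have h2 : ¬ Countable (ℕ → Bool) := by
    intro h
    have h3 : Cardinal.mk (ℕ → Bool) ≤ Cardinal.aleph0 := Cardinal.mk_le_aleph0_iff.2 h
    rw [h4] at h3
    exact absurd h3 (not_le.2 Cardinal.aleph0_lt_continuum)
  let e : (Icc (0 : ℝ) 1) ≃ᵐ (ℕ → Bool) := PolishSpace.measurableEquivOfNotCountable h1 h2
  refine ⟨(volume : Measure (Icc (0 : ℝ) 1)).map e, Measure.isProbabilityMeasure_map e.measurable.aemeasurable, fun v => ?_⟩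
  rw [Measure.map_apply e.measurable (measurableSet_singleton v)]
  have h3 : e ⁻¹' {v} = {e.symm v} := by
    ext t
    simp only [mem_preimage, mem_singleton_iff]
    constructor
    · intro h; rw [← h, e.symm_apply_apply]
    · intro h; rw [h, e.apply_symm_apply]
  rw [h3]
  exact measure_singleton _

/-- resampling one coordinate of a product measure -/
theorem map_update (ν : Measure (ℕ → Bool)) [IsProbabilityMeasure ν] (N : ℕ) :
    ((Measure.infinitePi fun _ : ℕ => ν).prod ν).map
      (fun p : (ℕ → ℕ → Bool) × (ℕ → Bool) => Function.update p.1 N p.2) =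
      Measure.infinitePi fun _ : ℕ => ν := by
  have hm : Measurable fun p : (ℕ → ℕ → Bool) × (ℕ → Bool) => Function.update p.1 N p.2 := by
    refine measurable_pi_lambda _ fun n => ?_
    by_cases h : n = N
    · subst h; simpa using measurable_snd
    · simp only [Function.update_of_ne h]
      exact (measurable_pi_apply n).comp measurable_fst
  refine Measure.eq_infinitePi _ fun s t ht => ?_
  rw [Measure.map_apply hm (MeasurableSet.pi s.countable_toSet fun i _ => ht i)]
  have h : (fun p : (ℕ → ℕ → Bool) × (ℕ → Bool) => Function.update p.1 N p.2) ⁻¹' (Set.pi s t) =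
      (Set.pi ((s.erase N : Finset ℕ) : Set ℕ) t) ×ˢ (if N ∈ s then t N else univ) := by
    ext p
    simp only [mem_preimage, Set.mem_pi, Finset.mem_coe, mem_prod, Finset.mem_erase]
    constructor
    · intro hp
      refine ⟨fun i hi => ?_, ?_⟩
      · have := hp i hi.2
        rwa [Function.update_of_ne hi.1] at this
      · split_ifs with hN
        · have := hp N hN
          rwa [Function.update_self] at this
        · trivial
    · rintro ⟨h1, h2⟩ i hi
      by_cases hiN : i = N
      · subst hiN
        rw [Function.update_self]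
        rwa [if_pos hi] at h2
      · rw [Function.update_of_ne hiN]
        exact h1 i ⟨hiN, hi⟩
  rw [h, Measure.prod_prod, Measure.infinitePi_pi _ fun i _ => ht i]
  split_ifs with hN
  · exact Finset.prod_erase_mul s (fun i => ν (t i)) hN
  · rw [measure_univ, mul_one, Finset.erase_eq_of_notMem hN]

/-- `E₁` has no Borel choice of countable subsets of its classes -/
theorem e1_no_sections : ¬ ∃ g : ℕ → (ℕ → ℕ → Bool) → (ℕ → ℕ → Bool), (∀ m, Measurable (g m)) ∧
    (∀ m x, ∃ k, ∀ n, k ≤ n → x n = g m x n) ∧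
    ∀ x x', (∃ k, ∀ n, k ≤ n → x n = x' n) →
      range (fun m => g m x) = range (fun m => g m x') := by
  rintro ⟨g, hg, h1, h2⟩
  obtain ⟨ν, hν, hat⟩ := exists_atomless
  set μ : Measure (ℕ → ℕ → Bool) := Measure.infinitePi fun _ : ℕ => ν with hμ
  let A : ℕ → Set (ℕ → ℕ → Bool) := fun N => {x | ∀ n, N ≤ n → x n = g 0 x n}
  have hA : ∀ N, MeasurableSet (A N) := by
    intro N
    have : A N = ⋂ n, ⋂ (_ : N ≤ n), {x | x n = g 0 x n} := by
      ext x; simp [A]
    rw [this]
    refine MeasurableSet.iInter fun n => MeasurableSet.iInter fun _ => ?_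
    exact measurableSet_eq_fun (measurable_pi_apply n) ((measurable_pi_apply n).comp (hg 0))
  have hU : ⋃ N, A N = univ := by
    ext x
    simp only [mem_iUnion, mem_univ, iff_true]
    exact h1 0 x
  obtain ⟨N, hN⟩ : ∃ N, μ (A N) ≠ 0 := by
    by_contra hcon
    push Not at hcon
    have h3 : μ (⋃ N, A N) = 0 := measure_iUnion_null hcon
    rw [hU, measure_univ] at h3
    exact one_ne_zero h3
  have hm : Measurable fun p : (ℕ → ℕ → Bool) × (ℕ → Bool) => Function.update p.1 N p.2 := by
    refine measurable_pi_lambda _ fun n => ?_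
    by_cases h : n = N
    · subst h; simpa using measurable_snd
    · simp only [Function.update_of_ne h]
      exact (measurable_pi_apply n).comp measurable_fst
  have h3 : μ (A N) = ∫⁻ x, ν {v | Function.update x N v ∈ A N} ∂μ := by
    conv_lhs => rw [hμ, ← map_update ν N]
    rw [Measure.map_apply hm (hA N), Measure.prod_apply (hm (hA N))]
    rfl
  obtain ⟨x, hx⟩ : ∃ x, ν {v | Function.update x N v ∈ A N} ≠ 0 := by
    by_contra hcon
    push Not at hcon
    apply hN
    rw [h3]
    simp [hcon]
  apply hx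
  have : NullSingletonClass ν := ⟨hat⟩
  refine Set.Countable.measure_zero ?_ ν
  refine ((Set.countable_range fun m => g m x).image fun z => z N).mono fun v hv => ?_
  have h4 : range (fun m => g m (Function.update x N v)) = range (fun m => g m x) := by
    apply h2
    refine ⟨N + 1, fun n hn => ?_⟩
    rw [Function.update_of_ne (by omega)]
  have h5 : g 0 (Function.update x N v) ∈ range (fun m => g m x) := by
    rw [← h4]
    exact ⟨0, rfl⟩
  refine ⟨g 0 (Function.update x N v), h5, ?_⟩
  have h6 := hv N le_rfl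
  simp only [Function.update_self] at h6
  exact h6.symm

/-- `E₁` and the parameter space `ℕ`: invariance for cofinitely many parameters -/
theorem e1_cofinite : ∃ f : (ℕ → ℕ → Bool) → ℕ → (ℕ → ℕ → Bool),
    (Measurable fun p : (ℕ → ℕ → Bool) × ℕ => f p.1 p.2) ∧
    (∀ x q, ∃ k, ∀ n, k ≤ n → x n = f x q n) ∧
    ∀ x x', (∃ k, ∀ n, k ≤ n → x n = x' n) → {q | f x q = f x' q}ᶜ.Finite := by
  refine ⟨fun x q n => if n < q then fun _ => false else x n, ?_, ?_, ?_⟩
  · refine measurable_pi_lambda _ fun n => ?_
    refine Measurable.ite ?_ measurable_const ((measurable_pi_apply n).comp measurable_fst)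
    exact measurable_snd (MeasurableSet.of_discrete (s := {q : ℕ | n < q}))
  · intro x q
    refine ⟨q, fun n hn => ?_⟩
    simp only [not_lt.2 hn, if_false]
  · rintro x x' ⟨k, hk⟩
    refine (Set.finite_lt_nat k).subset fun q hq => ?_
    simp only [mem_compl_iff, mem_setOf_eq] at hq ⊢
    by_contra hcon
    apply hq
    funext n
    by_cases hn : n < q
    · simp only [hn, if_true]
    · simp only [hn, if_false]
      exact hk n (by omega)

/-- `E₁` is reducible to `E₀` with a Cohen parameter -/
theorem e1_cohen_e0 : ∃ ψ : (ℕ → ℕ → Bool) → (ℕ → ℕ) → (ℕ → Bool),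
    (Measurable fun p : (ℕ → ℕ → Bool) × (ℕ → ℕ) => ψ p.1 p.2) ∧
    (∀ x y, (∃ k, ∀ n, k ≤ n → x n = y n) → ∀ q, ∃ k, ∀ n, k ≤ n → ψ x q n = ψ y q n) ∧
    ∀ x y, (¬ ∃ k, ∀ n, k ≤ n → x n = y n) →
      {q | ¬ ∃ k, ∀ n, k ≤ n → ψ x q n = ψ y q n} ∈ residual (ℕ → ℕ) := by
  refine ⟨fun x q n => x n (q n), ?_, ?_, ?_⟩
  · refine measurable_pi_lambda _ fun n => ?_
    refine measurable_to_bool ?_
    have : (fun p : (ℕ → ℕ → Bool) × (ℕ → ℕ) => p.1 n (p.2 n)) ⁻¹' {true} =
        ⋃ k, ({p | p.2 n = k} ∩ {p | p.1 n k = true}) := by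
      ext p
      simp
    rw [this]
    refine MeasurableSet.iUnion fun k => MeasurableSet.inter ?_ ?_
    · exact measurableSet_eq_fun ((measurable_pi_apply n).comp measurable_snd) measurable_const
    · exact measurableSet_eq_fun
        ((measurable_pi_apply k).comp ((measurable_pi_apply n).comp measurable_fst)) measurable_const
  · rintro x y ⟨k, hk⟩ q
    exact ⟨k, fun n hn => by simp only [hk n hn]⟩
  · intro x y hxy
    have hfr : ∀ m, ∃ n, m ≤ n ∧ ∃ k, x n k ≠ y n k := by
      intro m
      by_contra hcon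
      push Not at hcon
      exact hxy ⟨m, fun n hn => funext fun k => hcon n hn k⟩
    have hset : {q : ℕ → ℕ | ¬ ∃ k, ∀ n, k ≤ n → x n (q n) = y n (q n)} =
        ⋂ m, ⋃ n, ⋃ (_ : m ≤ n), {q : ℕ → ℕ | x n (q n) ≠ y n (q n)} := by
      ext q
      simp only [mem_setOf_eq, mem_iInter, mem_iUnion, not_exists, not_forall, exists_prop, ne_eq]
    show {q : ℕ → ℕ | ¬ ∃ k, ∀ n, k ≤ n → x n (q n) = y n (q n)} ∈ residual (ℕ → ℕ)
    rw [hset]
    refine countable_iInter_mem.2 fun m => residual_of_dense_open ?_ ?_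
    · refine isOpen_iUnion fun n => isOpen_iUnion fun _ => ?_
      have h7 : Continuous fun q : ℕ → ℕ => q n := continuous_apply n
      exact (isOpen_discrete {k : ℕ | x n k ≠ y n k}).preimage h7
    · rw [dense_iff_inter_open]
      rintro O hO ⟨q, hq⟩
      obtain ⟨I, u, hu, hsub⟩ := isOpen_pi_iff.1 hO q hq
      obtain ⟨n, hn, k, hk⟩ := hfr (m + I.sup id + 1)
      refine ⟨Function.update q n k, hsub ?_, ?_⟩
      · intro i hi
        have hin : i ≠ n := by
          have : i ≤ I.sup id := Finset.le_sup (f := id) hi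
          omega
        rw [Function.update_of_ne hin]
        exact (hu i hi).2
      · simp only [mem_iUnion, mem_setOf_eq]
        exact ⟨n, by omega, by rw [Function.update_self]; exact hk⟩

end Pool.Agent.H56.GS
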